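import Mathlib

/-!
# A decreasing chain for finite embeddability without greatest lower bound (MP_26c4ab_lc)

The positive integers are `ℕ+`.  `BN` is the set of ultrafilters on `ℕ+` preordered by (multiplicative)
finite embeddability.  We exhibit a decreasing sequence in the induced partial order of classes
that has no greatest lower bound: with `D` a nonprincipal ultrafilter on `ℕ` it is the sequence of
the classes of `D`-limits of `2 ^ (2 ^ n - t)`, for `t = 0, 1, 2, ...`.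
-/

namespace Pool.Agent.Results.MP_26c4ab_lc.NoGLB

open Filter Set

/-- `A` is finitely embeddable in `B`: every finite subset of `A` has a multiple inside `B`. -/
def FinEmb (A B : Set ℕ+) : Prop :=
  ∀ F : Finset ℕ+, (F : Set ℕ+) ⊆ A → ∃ k : ℕ+, ∀ x ∈ F, k * x ∈ B

theorem FinEmb.refl (A : Set ℕ+) : FinEmb A A := fun F hF => ⟨1, fun x hx => by
  rw [one_mul]; exact hF hx⟩

theorem FinEmb.trans {A B C : Set ℕ+} (h : FinEmb A B) (h' : FinEmb B C) : FinEmb A C := by
  classical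
  intro F hF
  obtain ⟨k, hk⟩ := h F hF
  obtain ⟨l, hl⟩ := h' (F.image fun x => k * x) (by
    intro y hy
    obtain ⟨x, hx, rfl⟩ := Finset.mem_image.1 (Finset.mem_coe.1 hy)
    exact hk x hx)
  exact ⟨l * k, fun x hx => by
    rw [mul_assoc]; exact hl _ (Finset.mem_image.2 ⟨x, hx, rfl⟩)⟩

/-- The set of ultrafilters on the positive integers (a type synonym, to carry the preorder). -/
structure BN where
  /-- the underlying ultrafilter -/
  u : Ultrafilter ℕ+

/-- The preorder `F ≤ G` iff every `B ∈ G` finitely embeds some `A ∈ F`. -/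
instance : Preorder BN where
  le F G := ∀ B ∈ G.u, ∃ A ∈ F.u, FinEmb A B
  le_refl F := fun B hB => ⟨B, hB, FinEmb.refl B⟩
  le_trans F G H h h' := fun C hC => by
    obtain ⟨B, hB, hBC⟩ := h' C hC
    obtain ⟨A, hA, hAB⟩ := h B hB
    exact ⟨A, hA, hAB.trans hBC⟩

theorem le_def (F G : BN) : F ≤ G ↔ ∀ B ∈ G.u, ∃ A ∈ F.u, FinEmb A B := Iff.rfl

/-- The partial order of classes of ultrafilters modulo mutual finite embeddability. -/
abbrev Classes : Type := Antisymmetrization BN (· ≤ ·)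

/-- The set of the numbers `2 ^ (2 ^ n)`. -/
def P : Set ℕ+ := {x | ∃ n : ℕ, x = 2 ^ (2 ^ n)}

theorem two_pow_sum {a b c d : ℕ} (hab : a ≤ b) (hcd : c ≤ d)
    (h : 2 ^ a + 2 ^ b = 2 ^ c + 2 ^ d) : a = c ∧ b = d := by
  have hbd : b = d := by
    rcases lt_trichotomy b d with hlt | heq | hlt
    · exfalso
      have h1 : (2 : ℕ) ^ a ≤ 2 ^ b := Nat.pow_le_pow_right (by norm_num) hab
      have h2 : (2 : ℕ) ^ (b + 1) ≤ 2 ^ d := Nat.pow_le_pow_right (by norm_num) hlt
      have h3 : 0 < (2 : ℕ) ^ c := by positivity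
      rw [pow_succ] at h2
      omega
    · exact heq
    · exfalso
      have h1 : (2 : ℕ) ^ c ≤ 2 ^ d := Nat.pow_le_pow_right (by norm_num) hcd
      have h2 : (2 : ℕ) ^ (d + 1) ≤ 2 ^ b := Nat.pow_le_pow_right (by norm_num) hlt
      have h3 : 0 < (2 : ℕ) ^ a := by positivity
      rw [pow_succ] at h2
      omega
  subst hbd
  refine ⟨Nat.pow_right_injective (le_refl 2) ?_, rfl⟩
  show (2 : ℕ) ^ a = 2 ^ c
  omega

theorem two_pow_sum' {n m n' m' : ℕ} (hne : n ≠ m)
    (h : 2 ^ n + 2 ^ m' = 2 ^ m + 2 ^ n') : n = n' := by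
  rcases le_total n m' with h1 | h1 <;> rcases le_total m n' with h2 | h2
  · exact absurd (two_pow_sum h1 h2 h).1 hne
  · rw [add_comm (2 ^ m) (2 ^ n')] at h
    exact (two_pow_sum h1 h2 h).1
  · rw [add_comm (2 ^ n) (2 ^ m')] at h
    exact (two_pow_sum h1 h2 h).2
  · rw [add_comm (2 ^ n) (2 ^ m'), add_comm (2 ^ m) (2 ^ n')] at h
    exact absurd (two_pow_sum h1 h2 h).2 hne

theorem mult_unique {x y k k' : ℕ+} (hxy : x ≠ y) (h1 : k * x ∈ P) (h2 : k * y ∈ P)
    (h3 : k' * x ∈ P) (h4 : k' * y ∈ P) : k = k' := by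
  obtain ⟨n, hn⟩ := h1
  obtain ⟨m, hm⟩ := h2
  obtain ⟨n', hn'⟩ := h3
  obtain ⟨m', hm'⟩ := h4
  have hnm : n ≠ m := by
    rintro rfl
    exact hxy (mul_left_cancel (hn.trans hm.symm))
  have hprod : (k * x) * (k' * y) = (k * y) * (k' * x) := by
    rw [mul_mul_mul_comm, mul_mul_mul_comm k y, mul_comm x y]
  rw [hn, hm, hn', hm', ← pow_add, ← pow_add] at hprod
  have hexp : 2 ^ n + 2 ^ m' = 2 ^ m + 2 ^ n' := by
    have := congrArg PNat.val hprod
    simp only [PNat.pow_coe] at this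
    exact Nat.pow_right_injective (le_refl 2) this
  have : n = n' := two_pow_sum' hnm hexp
  subst this
  exact mul_right_cancel (hn.trans hn'.symm)

/-- The `t`-th ultrafilter of the chain. -/
noncomputable def G (t : ℕ) : BN := ⟨(hyperfilter ℕ).map fun n => (2 : ℕ+) ^ (2 ^ n - t)⟩

theorem ev_large (t : ℕ) : ∀ᶠ n in (hyperfilter ℕ : Filter ℕ), t ≤ 2 ^ n := by
  have : {k : ℕ | t ≤ k} ∈ hyperfilter ℕ := Nat.hyperfilter_le_atTop (Ici_mem_atTop _)
  filter_upwards [this] with k hk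
  exact le_trans hk (le_of_lt k.lt_two_pow_self)

theorem G_succ_le (t : ℕ) : G (t + 1) ≤ G t := by
  intro B hB
  refine ⟨{x | 2 * x ∈ B}, ?_, fun F hF => ⟨2, fun x hx => hF hx⟩⟩
  have hB' : ∀ᶠ n in (hyperfilter ℕ : Filter ℕ), (2 : ℕ+) ^ (2 ^ n - t) ∈ B := hB
  show ∀ᶠ n in (hyperfilter ℕ : Filter ℕ), 2 * (2 : ℕ+) ^ (2 ^ n - (t + 1)) ∈ B
  filter_upwards [hB', ev_large (t + 1)] with n hn hl
  rw [← pow_succ']
  rwa [show 2 ^ n - (t + 1) + 1 = 2 ^ n - t by omega]

theorem G_anti : Antitone G := antitone_nat_of_succ_le G_succ_le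

/-- The principal ultrafilters at powers of two are lower bounds. -/
theorem pow_le (k t : ℕ) : (⟨pure (2 ^ k)⟩ : BN) ≤ G t := by
  intro B hB
  have hB' : ∀ᶠ n in (hyperfilter ℕ : Filter ℕ), (2 : ℕ+) ^ (2 ^ n - t) ∈ B := hB
  obtain ⟨n, hn, hl⟩ := (hB'.and (ev_large (t + k))).exists
  refine ⟨{2 ^ k}, mem_singleton _, fun F hF => ⟨2 ^ (2 ^ n - t - k), fun x hx => ?_⟩⟩
  have hx' : x = 2 ^ k := hF hx
  rw [hx', ← pow_add, show 2 ^ n - t - k + k = 2 ^ n - t by omega]
  exact hn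

theorem no_glb (g : BN) (hg : ∀ t, g ≤ G t) (hgr : ∀ h : BN, (∀ t, h ≤ G t) → h ≤ g) :
    False := by
  classical
  -- `g` contains the multiples of all powers of two
  have hdiv : ∀ k : ℕ, {x : ℕ+ | (2 : ℕ+) ^ k ∣ x} ∈ g.u := by
    intro k
    by_contra hcon
    have hc := (Ultrafilter.compl_mem_iff_notMem).2 hcon
    obtain ⟨A, hA, hAB⟩ := hgr _ (pow_le k) _ hc
    obtain ⟨m, hm⟩ := hAB {2 ^ k} (by
      intro x hx
      rw [Finset.coe_singleton, mem_singleton_iff] at hx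
      rw [hx]; exact hA)
    exact hm _ (Finset.mem_singleton_self _) (Dvd.intro_left m rfl)
  -- hence every member of `g` has two distinct elements
  have htwo : ∀ A ∈ g.u, ∃ x ∈ A, ∃ y ∈ A, x ≠ y := by
    intro A hA
    obtain ⟨x, hx⟩ := g.u.nonempty_of_mem hA
    obtain ⟨y, hyA, hy⟩ := g.u.nonempty_of_mem (inter_mem hA (hdiv x))
    refine ⟨x, hx, y, hyA, ?_⟩
    rintro rfl
    have h1 : (2 : ℕ+) ^ (x : ℕ) ∣ x := hy
    have h2 := Nat.le_of_dvd x.pos (PNat.dvd_iff.1 h1)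
    rw [PNat.pow_coe] at h2
    exact absurd (Nat.lt_two_pow_self (n := (x : ℕ))) (not_lt.2 h2)
  -- the sets `B t` of the chain
  have hP : ∀ t : ℕ, {z : ℕ+ | 2 ^ t * z ∈ P} ∈ (G t).u := by
    intro t
    show ∀ᶠ n in (hyperfilter ℕ : Filter ℕ), 2 ^ t * (2 : ℕ+) ^ (2 ^ n - t) ∈ P
    filter_upwards [ev_large t] with n hn
    exact ⟨n, by rw [← pow_add, show t + (2 ^ n - t) = 2 ^ n by omega]⟩
  obtain ⟨A, hA, hAB⟩ := hg 0 _ (hP 0)
  obtain ⟨p, hp, q, hq, hpq⟩ := htwo A hA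
  obtain ⟨k, hk⟩ := hAB {p, q} (by
    intro x hx
    rw [Finset.coe_pair] at hx
    rcases hx with rfl | hx
    · exact hp
    · rw [mem_singleton_iff] at hx; rw [hx]; exact hq)
  have hkp : k * p ∈ P := by
    have := hk p (by simp)
    rwa [mem_setOf_eq, pow_zero, one_mul] at this
  have hkq : k * q ∈ P := by
    have := hk q (by simp)
    rwa [mem_setOf_eq, pow_zero, one_mul] at this
  -- use the level `t = k`
  obtain ⟨A', hA', hAB'⟩ := hg k _ (hP k)
  obtain ⟨x, hx, y, hy, hxy⟩ := htwo _ (inter_mem hA hA')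
  obtain ⟨k1, hk1⟩ := hAB {p, q, x, y} (by
    intro z hz
    simp only [Finset.coe_insert, Finset.coe_singleton, mem_insert_iff, mem_singleton_iff] at hz
    rcases hz with rfl | rfl | rfl | rfl
    · exact hp
    · exact hq
    · exact hx.1
    · exact hy.1)
  have h1 : ∀ z ∈ ({p, q, x, y} : Finset ℕ+), k1 * z ∈ P := by
    intro z hz
    have := hk1 z hz
    rwa [mem_setOf_eq, pow_zero, one_mul] at this
  have e1 : k = k1 := mult_unique hpq hkp hkq (h1 p (by simp)) (h1 q (by simp))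
  obtain ⟨k2, hk2⟩ := hAB' {x, y} (by
    intro z hz
    rw [Finset.coe_pair] at hz
    rcases hz with rfl | hz
    · exact hx.2
    · rw [mem_singleton_iff] at hz; rw [hz]; exact hy.2)
  have h2x : (2 ^ (k : ℕ) * k2) * x ∈ P := by
    have := hk2 x (by simp)
    rwa [mem_setOf_eq, ← mul_assoc] at this
  have h2y : (2 ^ (k : ℕ) * k2) * y ∈ P := by
    have := hk2 y (by simp)
    rwa [mem_setOf_eq, ← mul_assoc] at this
  have e2 : k1 = 2 ^ (k : ℕ) * k2 :=
    mult_unique hxy (h1 x (by simp)) (h1 y (by simp)) h2x h2y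
  have h5 := congrArg PNat.val (e1.trans e2)
  rw [PNat.mul_coe, PNat.pow_coe] at h5
  have h6 : (k : ℕ) < 2 ^ (k : ℕ) := Nat.lt_two_pow_self
  have h7 : (2 : ℕ) ^ (k : ℕ) ≤ 2 ^ (k : ℕ) * (k2 : ℕ) := Nat.le_mul_of_pos_right _ k2.pos
  have h8 : ((2 : ℕ+) : ℕ) = 2 := rfl
  rw [h8] at h5
  omega

/-- There is a decreasing sequence of classes, for the order induced by finite embeddability of
ultrafilters on the positive integers, that has no greatest lower bound. -/
theorem result : ∃ c : ℕ → Classes, Antitone c ∧ ¬ ∃ g : Classes, IsGLB (range c) g := by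
  refine ⟨fun t => toAntisymmetrization (· ≤ ·) (G t), fun i j hij => ?_, ?_⟩
  · exact toAntisymmetrization_le_toAntisymmetrization_iff.2 (G_anti hij)
  · rintro ⟨g, hg⟩
    induction g using Antisymmetrization.ind with
    | _ g =>
      refine no_glb g (fun t => ?_) (fun h hh => ?_)
      · exact toAntisymmetrization_le_toAntisymmetrization_iff.1 (hg.1 (mem_range_self t))
      · refine toAntisymmetrization_le_toAntisymmetrization_iff.1 (hg.2 ?_)
        rintro _ ⟨t, rfl⟩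
        exact toAntisymmetrization_le_toAntisymmetrization_iff.2 (hh t)

end Pool.Agent.Results.MP_26c4ab_lc.NoGLB
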